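import Pool.Agent.Q46.HalfEx

set_option autoImplicit false

/-!
# Probabilistically faulty search on the half-line: the competitive ratio can be below `4 - p`

`IsTrajectory`, `clock`, `detect`, `undetected`, `expectedTime` and `ratio` are defined in
`Pool.Agent.Q46.HalfDefs`.

The trajectory consists of cycles `k = 0, 1, 2, …`; cycle `k` visits the points
`0 → 32/81 → 28/81 → 7/9 → 2/3 → 1 → 0`, all multiplied by `(3/2) ^ k`.  Besides the sweep from `0`
to the new record `(3/2) ^ k` and back to `0` it contains two short zigzags, one just beyond the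
previous record and one beyond the record three cycles ago.
-/

namespace Pool.Agent.Results.MP_1aa7fe_lc.BelowFourMinusP

open Pool.Agent.Q46.Half

/-- For `p = 1/3` there is a feasible trajectory whose competitive ratio is at most
`73/20 = 3.65 < 4 - p`. -/
theorem result : ∃ t : ℕ → ℝ, IsTrajectory t ∧
    (∀ d : ℝ, 1 ≤ d → expectedTime (1 / 3) t d < ⊤) ∧
    ratio (1 / 3) t ≤ ENNReal.ofReal (73 / 20) ∧
    ratio (1 / 3) t < ENNReal.ofReal (4 - 1 / 3) := by
  refine ⟨T, isTrajectory, fun d hd => ?_, ratio_le, ?_⟩
  · exact lt_of_le_of_lt (expectedTime_le_main hd) ENNReal.ofReal_lt_top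
  · refine lt_of_le_of_lt ratio_le ?_
    rw [ENNReal.ofReal_lt_ofReal_iff (by norm_num)]
    norm_num

end Pool.Agent.Results.MP_1aa7fe_lc.BelowFourMinusP
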